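import Pool.Agent.Helper66.PL.Pins

/-!
# PL-D4: a ball with two hubs and a short walk between them (MP_0dbcb7_co)

`draw_p3_of_move` is `draw_p3` (Helper23/PL/SpecE) with the statement of `move` (Helper23/PL/SpecD) as its hypothesis.
Among all walks from a neighbour of `a = hub p` to a neighbour of `b` avoiding `p` and passing a vertex outside the hubs
which can be reached from `x p` at cost `k ρ + 1`, `W` has minimal cost. The branch vertex `v` of the core is moved to the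
point number `(k + 2) d(v)` of the walk `R` along `W`, `d(v)` = distance of `v` to the nearest pin at `a` plus its length.
-/

set_option autoImplicit false
set_option linter.unusedSectionVars false

open Set
open Pool.Agent.Helper83.OP Pool.Agent.Helper83.HR Pool.Agent.Helper93.HH Pool.Agent.Helper95.HH
open Pool.Agent.Helper23.PL

namespace Pool.Agent.Helper66.PL

theorem kpl_le {V : Type} {m m' : ℕ} {H : SimpleGraph V} (h : KPl m H) (hm : m ≤ m') :
    KPl m' H := by
  obtain ⟨pos, γ, hd, hc⟩ := h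
  exact ⟨pos, γ, hd, fun e he => (hc e he).trans (by exact_mod_cast hm)⟩

section

variable {V P Q : Type} [Finite V] {D : HD V P Q}

/-- a neighbour of a hub which can be reached -/
theorem out_of_hub (hD : D.Ok) (hG : GOk D) {p : P} {y z : V} (W : D.G.Walk y z)
    (hW : ∀ f ∈ W.edges, f ∉ Fp D p) (hy : y ∉ D.U) {v : V} (hv : v ∈ W.support) {t : ℕ} {x : V}
    (h : Rch D (Fp D p) t x v) :
    ∃ v' ∈ W.support, v' ∉ D.U ∧ Rch D (Fp D p) (t + 1) x v' := by
  classical
  obtain ⟨X, hX, hXt⟩ := h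
  by_cases hvU : v ∈ D.U
  · have hne : y ≠ v := fun h => hy (h ▸ hvU)
    have h1 : 1 ≤ (W.takeUntil v hv).length := by
      rcases Nat.eq_zero_or_pos (W.takeUntil v hv).length with h0 | h0
      · exact absurd (SimpleGraph.Walk.eq_of_length_eq_zero h0) hne
      · exact h0
    obtain ⟨v', Y, hv', hY⟩ := last_split (W.takeUntil v hv) h1
    have h2 : v' ∈ (W.takeUntil v hv).support := by
      rw [hY, SimpleGraph.Walk.mem_support_append_iff]
      exact Or.inl Y.end_mem_support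
    have h3 : s(v', v) ∈ (W.takeUntil v hv).edges := by
      rw [hY, SimpleGraph.Walk.edges_append]
      simp
    have h4 : s(v, v') ∉ Fp D p := by
      rw [Sym2.eq_swap]
      exact hW _ (W.edges_takeUntil_subset_edges hv h3)
    have h5 : v' ∉ D.U := fun h5 => hub_nadj D hD hG v' h5 v hvU hv'
    refine ⟨v', W.support_takeUntil_subset_support hv h2, h5,
      X.append (SimpleGraph.Walk.cons hv'.symm SimpleGraph.Walk.nil), ?_, ?_⟩
    · intro f hf
      rw [SimpleGraph.Walk.edges_append, List.mem_append] at hf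
      rcases hf with hf | hf
      · exact hX f hf
      · simp only [SimpleGraph.Walk.edges_cons, SimpleGraph.Walk.edges_nil, List.mem_cons,
          List.not_mem_nil, or_false] at hf
        rw [hf]
        exact h4
    · have h6 := cw_append X (SimpleGraph.Walk.cons hv'.symm SimpleGraph.Walk.nil)
      rw [cw_cons, cw_nil, gh_out h5] at h6
      omega
  · exact ⟨v, hv, hvU, X, hX, by omega⟩

/-- the walks between the two hubs -/
def Cand (D : HD V P Q) (p : P) (b : V) (t c : ℕ) : Prop :=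
  ∃ (y z : V) (W : D.G.Walk y z), Nb D (Fp D p) (D.hub p) y ∧ Nb D (Fp D p) b z ∧
    (∀ f ∈ W.edges, f ∉ Fp D p) ∧ cw D W = c ∧
    ∃ v ∈ W.support, v ∉ D.U ∧ Rch D (Fp D p) t (D.x p) v

/-- two pins and a walk of `N` -/
theorem cand_pins (hD : D.Ok) {p q1 q2 : P} (h1 : q1 ≠ p) (h2 : q2 ≠ p) (hh : D.hub q1 = D.hub p)
    {s t T : ℕ} (hx : Nr D.N s (D.x p) (D.x q1)) (hs : s ≤ T) (ht : Nr D.N t (D.x q1) (D.x q2)) :
    ∃ c, c ≤ (D.w q1).length + t + (D.w q2).length ∧ Cand D p (D.hub q2) T c := by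
  obtain ⟨y, X, hy, hy2, hyU, hX, hX2⟩ := pin_walk hD q1
  obtain ⟨z, Z, hz, hz2, hzU, hZ, hZ2⟩ := pin_walk hD q2
  obtain ⟨A, hA⟩ := ht
  obtain ⟨B, hB, hB2⟩ := N_walk hD A (hD.x_U q1)
  obtain ⟨A', hA'⟩ := hx
  obtain ⟨B', hB', hB2'⟩ := N_walk hD A' (hD.x_U p)
  refine ⟨cw D (X.reverse.append (B.append Z)), ?_, y, z, X.reverse.append (B.append Z),
    ⟨?_, ?_⟩, ⟨?_, ?_⟩, ?_, rfl, D.x q1, ?_, hD.x_U q1, B', ?_, by omega⟩
  · have h3 := cw_append_le X.reverse (B.append Z)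
    have h4 := cw_append_le B Z
    rw [cw_reverse] at h3
    omega
  · rw [← hh]
    exact hy.symm
  · rw [← hh]
    exact pin_edges hD h1 hy2
  · exact hz.symm
  · exact pin_edges hD h2 hz2
  · intro f hf
    rw [SimpleGraph.Walk.edges_append, List.mem_append, SimpleGraph.Walk.edges_append,
      List.mem_append, SimpleGraph.Walk.edges_reverse, List.mem_reverse] at hf
    rcases hf with hf | hf | hf
    · exact pin_edges hD h1 (hX f hf)
    · exact N_not_pin hD (hB2 f hf)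
    · exact pin_edges hD h2 (hZ f hf)
  · rw [SimpleGraph.Walk.mem_support_append_iff]
    exact Or.inl X.reverse.end_mem_support
  · intro f hf
    exact N_not_pin hD (hB2' f hf)

/-- the walk between the doors -/
theorem exists_R (hD : D.Ok) (hG : GOk D) {p : P} {e : Sym2 V} (he : e ∈ (D.w p).edges)
    {ord : V → V → ℕ} (hord : IsOrd (D.G.deleteEdges {e}) D.U ord) {b y z : V} (hb : b ∈ D.U)
    (hy : Nb D (Fp D p) (D.hub p) y) (hz : Nb D (Fp D p) b z) (W : D.G.Walk y z)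
    (hW : ∀ f ∈ W.edges, f ∉ Fp D p) {v : V} (hv : v ∈ W.support) (hvU : v ∉ D.U) :
    ∃ (da db : Dor (D.G.deleteEdges {e}) D.U)
      (R : (ringOut (D.G.deleteEdges {e}) D.U ord).Walk (Sum.inr da) (Sum.inr db)),
      da.1.2 = D.hub p ∧ db.1.2 = b ∧ R.length ≤ cw D W + 2 ∧ Sum.inl v ∈ R.support := by
  classical
  have hyU : y ∉ D.U := fun h => hub_nadj D hD hG _ (hD.hub_U p) y h hy.1
  have hzU : z ∉ D.U := fun h => hub_nadj D hD hG b hb z h hz.1
  have hyH : (D.G.deleteEdges {e}).Adj y (D.hub p) := by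
    rw [SimpleGraph.deleteEdges_adj]
    refine ⟨hy.1.symm, fun h => ?_⟩
    rw [Sym2.eq_swap] at h
    have h2 : s(D.hub p, y) = e := h
    exact hy.2 (h2 ▸ he)
  have hzH : (D.G.deleteEdges {e}).Adj z b := by
    rw [SimpleGraph.deleteEdges_adj]
    refine ⟨hz.1.symm, fun h => ?_⟩
    rw [Sym2.eq_swap] at h
    have h2 : s(b, z) = e := h
    exact hz.2 (h2 ▸ he)
  have h1 := cw_append (W.takeUntil v hv) (W.dropUntil v hv)
  rw [W.take_spec hv, gh_out hvU] at h1
  obtain ⟨R1, hR1⟩ := ring_G hD hG he hord hyU hvU (W.takeUntil v hv)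
    (fun f hf => hW f (W.edges_takeUntil_subset_edges hv hf)) le_rfl
  obtain ⟨R2, hR2⟩ := ring_G hD hG he hord hvU hzU (W.dropUntil v hv)
    (fun f hf => hW f (W.edges_dropUntil_subset_edges hv hf)) le_rfl
  have a1 : (ringOut (D.G.deleteEdges {e}) D.U ord).Adj
      (Sum.inr (mkDor y (D.hub p) hyH (hD.hub_U p))) (Sum.inl y) :=
    (ringOut_door (mkDor y (D.hub p) hyH (hD.hub_U p)) hyU).symm
  have a2 : (ringOut (D.G.deleteEdges {e}) D.U ord).Adj (Sum.inl z)
      (Sum.inr (mkDor z b hzH hb)) := ringOut_door (mkDor z b hzH hb) hzU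
  refine ⟨mkDor y (D.hub p) hyH (hD.hub_U p), mkDor z b hzH hb,
    SimpleGraph.Walk.cons a1 (R1.append (R2.append (SimpleGraph.Walk.cons a2
      SimpleGraph.Walk.nil))), rfl, rfl, ?_, ?_⟩
  · rw [SimpleGraph.Walk.length_cons, SimpleGraph.Walk.length_append,
      SimpleGraph.Walk.length_append, SimpleGraph.Walk.length_cons, SimpleGraph.Walk.length_nil]
    omega
  · rw [SimpleGraph.Walk.support_cons, List.mem_cons, SimpleGraph.Walk.mem_support_append_iff]
    exact Or.inr (Or.inl R1.end_mem_support)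

/-- distance to the nearest pin at the hub of `p`, plus its length -/
noncomputable def dd (D : HD V P Q) (p : P) (C : Set V) (v : V) : ℕ :=
  sInf {t | ∃ q s, D.hub q = D.hub p ∧ D.x q ∈ C ∧ Nr D.N s v (D.x q) ∧ t = s + (D.w q).length}

theorem dd_le {p q : P} {C : Set V} {v : V} {s : ℕ} (h1 : D.hub q = D.hub p) (h2 : D.x q ∈ C)
    (h3 : Nr D.N s v (D.x q)) : dd D p C v ≤ s + (D.w q).length :=
  Nat.sInf_le ⟨q, s, h1, h2, h3, rfl⟩

theorem dd_spec {p : P} {C : Set V} {v : V} {s : ℕ} (h2 : D.x p ∈ C) (h3 : Nr D.N s v (D.x p)) :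
    ∃ q s, D.hub q = D.hub p ∧ D.x q ∈ C ∧ Nr D.N s v (D.x q) ∧
      dd D p C v = s + (D.w q).length :=
  Nat.sInf_mem (s := {t | ∃ q s, D.hub q = D.hub p ∧ D.x q ∈ C ∧ Nr D.N s v (D.x q) ∧
    t = s + (D.w q).length}) ⟨_, p, s, rfl, h2, h3, rfl⟩

theorem dd_lip {p : P} {C : Set V} {u v : V} {s t : ℕ} (h2 : D.x p ∈ C)
    (h3 : Nr D.N s v (D.x p)) (h : Nr D.N t u v) : dd D p C u ≤ t + dd D p C v := by
  obtain ⟨q, s', h4, h5, h6, h7⟩ := dd_spec h2 h3
  have := dd_le h4 h5 (h.trans h6)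
  omega

end

/-- the statement of `move` -/
def MoveS : Prop := ∃ c : ℕ, ∀ (V P Q : Type) [Finite V] [Finite P] [Finite Q] (D : HD V P Q)
    (p0 : P) (e : Sym2 V) (M : ℕ) (C : Set V), D.Ok → GOk D → e ∈ (D.w p0).edges →
    KPl 1 (D.G.deleteEdges {e}) → 1 ≤ M → D.Kh * D.r ≤ M → C.ncard ≤ M → D.x p0 ∈ C →
    (∀ v ∈ C, v ∈ D.VN ∧ 3 ≤ D.dg v) →
    (∀ ord : V → V → ℕ, IsOrd (D.G.deleteEdges {e}) D.U ord →
      ∃ f : V → V ⊕ Dor (D.G.deleteEdges {e}) D.U,
        (∀ v ∈ C, ∀ a ∈ D.U, f v ≠ Sum.inl a) ∧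
        (∀ u ∈ C, ∀ v ∈ C, ∀ A : D.N.Walk u v, A.IsPath →
          ∃ p : (ringOut (D.G.deleteEdges {e}) D.U ord).Walk (f u) (f v), p.length ≤ M * A.length) ∧
        (∀ u ∈ C, ∀ v, v ∉ C → v ∈ D.VN → 3 ≤ D.dg v → ∀ A : D.N.Walk u v, A.IsPath →
          (∀ z ∈ A.support, z ≠ u → z ≠ v → D.dg z = 2) →
          ∃ p : (ringOut (D.G.deleteEdges {e}) D.U ord).Walk (f u) (Sum.inl v),
            p.length ≤ M * A.length) ∧
        ∀ q, D.x q ∈ C → ∃ d : Dor (D.G.deleteEdges {e}) D.U, d.1.2 = D.hub q ∧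
          ∃ p : (ringOut (D.G.deleteEdges {e}) D.U ord).Walk (f (D.x q)) (Sum.inr d),
            p.length ≤ M * (D.w q).length) →
    KPl (c * M ^ 6) D.G

private theorem num_out {k k2 κ ρ a : ℕ} (hk : 1 ≤ k) (hk2 : 1 ≤ k2) (hκ : 1 ≤ κ) (ha : 1 ≤ a)
    (h : ρ ≤ 2 * (k2 + 1) * a) : 2 * (k * ρ) + 3 + ρ + a ≤ 16 * κ * k * k2 * a := by
  have h1 : ρ ≤ 4 * (k2 * a) := by nlinarith [Nat.le_mul_of_pos_left a hk2]
  have h2 : k * ρ ≤ 4 * (k * (k2 * a)) := by nlinarith
  have h3 : k2 * a ≤ k * (k2 * a) := Nat.le_mul_of_pos_left _ hk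
  have h4 : a ≤ k2 * a := Nat.le_mul_of_pos_left _ hk2
  have h5 : k * (k2 * a) ≤ κ * (k * (k2 * a)) := Nat.le_mul_of_pos_left _ hκ
  have h6 : 16 * κ * k * k2 * a = 16 * (κ * (k * (k2 * a))) := by ring
  omega

private theorem num_pin {k k2 κ ρ a : ℕ} (hk : 1 ≤ k) (hk2 : 1 ≤ k2) (hκ : 1 ≤ κ) (ha : 1 ≤ a)
    (h : ρ ≤ 2 * a) : 2 * (k * ρ) + 3 + ρ + a ≤ 16 * κ * k * k2 * a :=
  num_out hk hk2 hκ ha (h.trans (by nlinarith [Nat.le_mul_of_pos_left a hk2]))

private theorem num_lip {k k2 κ a : ℕ} (hk : 1 ≤ k) (hk2 : 1 ≤ k2) (hκ : 1 ≤ κ) :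
    (k + 2) * a ≤ 16 * κ * k * k2 * a := by
  refine Nat.mul_le_mul_right _ ?_
  have h3 : k ≤ k * k2 := Nat.le_mul_of_pos_right _ hk2
  have h5 : k * k2 ≤ κ * (k * k2) := Nat.le_mul_of_pos_left _ hκ
  have h6 : 16 * κ * k * k2 = 16 * (κ * (k * k2)) := by ring
  omega

/-- **PL-D4 (p3).** -/
theorem draw_p3_of_move (hmove : MoveS) : ∃ c : ℕ, ∀ (V P Q : Type) [Finite V] [Finite P]
    [Finite Q] (D : HD V P Q) (k k2 : ℕ), D.Ok → GOk D → 1 ≤ k → 1 ≤ k2 →
    (∀ e ∈ D.G.edgeSet, KPl 1 (D.G.deleteEdges {e})) →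
    ∀ p b ρ, 1 ≤ ρ → b ∈ D.U → b ≠ D.hub p → bv D (D.ball ρ (D.x p)) ≤ k2 →
    (∀ q, Pn D ρ (D.x p) q → D.hub q = D.hub p ∨ D.hub q = b) →
    ∀ y z (W : D.G.Walk y z), Nb D (Fp D p) (D.hub p) y → Nb D (Fp D p) b z →
      (∀ f ∈ W.edges, f ∉ Fp D p) → cw D W ≤ k * ρ →
      (∀ q t, D.hub q = b → Nr D.N t (D.x p) (D.x q) →
        cw D W ≤ k * ((D.w p).length + t + (D.w q).length)) →
      ∀ v ∈ W.support, Rch D (Fp D p) (k * ρ) (D.x p) v →
    KPl (c * (D.Kh * D.r * k * k2) ^ c) D.G := by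
  classical
  obtain ⟨c, hc⟩ := hmove
  refine ⟨c * 16 ^ 6 + 6, ?_⟩
  intro V P Q _ _ _ D k k2 hD hG hk hk2 hcrit p b ρ hρ hb hbp hbv hpin y0 z0 W0 hy0 hz0 hW0 hcw hiv
    v0 hv0 hr0
  have hr := hD.r_pos
  have hge := hD.w_ge p
  have hκ : 1 ≤ D.Kh * D.r := by
    have h1 := hD.three p
    have h2 := hD.dg_le (D.x p) (hD.x_U p)
    omega
  -- the edge
  obtain ⟨e, he⟩ : ∃ e, e ∈ (D.w p).edges := by
    have h1 : (D.w p).edges.length ≠ 0 := by
      rw [SimpleGraph.Walk.length_edges]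
      omega
    exact List.exists_mem_of_length_pos (Nat.pos_of_ne_zero h1)
  have heG : e ∈ D.G.edgeSet := (D.w p).edges_subset_edgeSet he
  -- the minimal walk
  have hy0U : y0 ∉ D.U := fun h => hub_nadj D hD hG _ (hD.hub_U p) y0 h hy0.1
  have hC0 : Cand D p b (k * ρ + 1) (cw D W0) :=
    ⟨y0, z0, W0, hy0, hz0, hW0, rfl, out_of_hub hD hG W0 hW0 hy0U hv0 hr0⟩
  have hex : ∃ n, Cand D p b (k * ρ + 1) n := ⟨_, hC0⟩
  obtain ⟨n, hn, hmin⟩ : ∃ n, Cand D p b (k * ρ + 1) n ∧ ∀ n', Cand D p b (k * ρ + 1) n' → n ≤ n' :=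
    ⟨Nat.find hex, Nat.find_spec hex, fun n' h => Nat.find_min' hex h⟩
  have hn0 : n ≤ cw D W0 := hmin _ hC0
  have hρk : ρ ≤ k * ρ := Nat.le_mul_of_pos_left _ hk
  -- (*)
  have hstar : ∀ q1 q2 s t, D.hub q1 = D.hub p → D.hub q2 = b → Nr D.N s (D.x p) (D.x q1) →
      s ≤ ρ → Nr D.N t (D.x q1) (D.x q2) → n ≤ k * ((D.w q1).length + t + (D.w q2).length) := by
    intro q1 q2 s t h1 h2 h3 h4 h5
    by_cases h6 : q1 = p
    · subst h6
      exact hn0.trans (hiv q2 t h2 h5)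
    · have h7 : q2 ≠ p := by
        rintro rfl
        exact hbp h2.symm
      obtain ⟨c', hc', hc2⟩ := cand_pins hD h6 h7 h1 h3 (h4.trans (by omega : ρ ≤ k * ρ + 1)) h5
      rw [h2] at hc2
      exact (hmin c' hc2).trans (hc'.trans (Nat.le_mul_of_pos_left _ hk))
  obtain ⟨y, z, W, hy, hz, hW, hWn, v, hv, hvU, hvr⟩ := hn
  -- the core
  obtain ⟨σ, hσ, hgap⟩ := exists_gap D (D.x p) ρ k2 hbv
  set C : Set V := {u | u ∈ D.VN ∧ 3 ≤ D.dg u ∧ Nr D.N σ (D.x p) u} with hCdef
  have hxC : D.x p ∈ C := ⟨HD.x_VN p, hD.three p, Nr.refl _ _ _⟩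
  have hCU : ∀ u ∈ C, u ∉ D.U := fun u hu => HD.VN_U hD hu.1
  have hCk : C.ncard ≤ k2 := by
    refine le_trans (Set.ncard_le_ncard ?_ (Set.toFinite _)) hbv
    rintro u ⟨-, h2, h3⟩
    exact ⟨h3.mono (by omega), h2⟩
  set M := 16 * (D.Kh * D.r) * k * k2 with hM
  have hMk2 : k2 ≤ M := by
    have h1 := num_lip (a := 1) hk hk2 hκ
    have h2 : k2 ≤ (D.Kh * D.r) * k * k2 := Nat.le_mul_of_pos_left _ (Nat.mul_pos hκ hk)
    have h3 : M = 16 * ((D.Kh * D.r) * k * k2) := by rw [hM]; ring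
    omega
  have hMκ : D.Kh * D.r ≤ M := by
    have h2 : D.Kh * D.r ≤ D.Kh * D.r * (k * k2) := Nat.le_mul_of_pos_right _ (Nat.mul_pos hk hk2)
    have h3 : M = 16 * (D.Kh * D.r * (k * k2)) := by rw [hM]; ring
    omega
  have hmain := hc V P Q D p e M C hD hG he (hcrit e heG) (hκ.trans hMκ) hMκ (hCk.trans hMk2) hxC
    (fun u hu => ⟨hu.1, hu.2.1⟩) ?_
  · refine kpl_le hmain ?_
    have h1 : M = 16 * (D.Kh * D.r * k * k2) := by rw [hM]; ring
    have h2 : 1 ≤ D.Kh * D.r * k * k2 := Nat.mul_pos (Nat.mul_pos hκ hk) hk2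
    rw [h1, mul_pow, ← mul_assoc]
    exact Nat.mul_le_mul (by omega) (Nat.pow_le_pow_right h2 (by omega))
  · intro ord hord
    obtain ⟨da, db, R, hda, hdb, hRl, hRv⟩ := exists_R hD hG he hord hb hy hz W hW hv hvU
    have hback : Nr (ringOut (D.G.deleteEdges {e}) D.U ord) (k * ρ + 1) (Sum.inl v)
        (Sum.inl (D.x p)) := by
      obtain ⟨X, hX, hXt⟩ := hvr
      exact (ring_G hD hG he hord (hD.x_U p) hvU X hX hXt).symm
    have hRk : R.length ≤ k * ρ + 2 := by omega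
    -- from a moved vertex back to a vertex of the core
    have hto : ∀ i u, Nr D.N σ (D.x p) u →
        Nr (ringOut (D.G.deleteEdges {e}) D.U ord) (2 * (k * ρ) + 3 + σ) (R.getVert i)
          (Sum.inl u) := by
      intro i u hu
      have h1 := nr_getVert_len R i hRv
      have h2 := ring_N hD hG he hord (hD.x_U p) hu
      exact ((h1.trans hback).trans h2).mono (by omega)
    refine ⟨fun u => R.getVert ((k + 2) * dd D p C u), ?_, ?_, ?_, ?_⟩
    · intro u _ a ha
      exact ringOut_walk_ne R (fun a _ h => by cases h) _ a ha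
    · intro u hu w hw A _
      have h1 : Nr D.N A.length u w := ⟨A, le_rfl⟩
      have h2 := dd_lip hxC hw.2.2.symm h1
      have h3 := dd_lip hxC hu.2.2.symm h1.symm
      have h4 : Nr (ringOut (D.G.deleteEdges {e}) D.U ord) ((k + 2) * A.length)
          (R.getVert ((k + 2) * dd D p C u)) (R.getVert ((k + 2) * dd D p C w)) := by
        rcases le_total (dd D p C u) (dd D p C w) with h5 | h5
        · refine (nr_getVert R (Nat.mul_le_mul_left (k + 2) h5)).mono ?_
          rw [← Nat.mul_sub]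
          exact Nat.mul_le_mul_left _ (by omega)
        · refine (nr_getVert R (Nat.mul_le_mul_left (k + 2) h5)).symm.mono ?_
          rw [← Nat.mul_sub]
          exact Nat.mul_le_mul_left _ (by omega)
      exact h4.mono (num_lip hk hk2 hκ)
    · intro u hu w hw hwN hw3 A _ _
      have h1 : ¬ Nr D.N (σ + ρ / (2 * (k2 + 1))) (D.x p) w := fun h1 =>
        hw ⟨hwN, hw3, hgap w hw3 h1⟩
      have h2 : Nr D.N (σ + A.length) (D.x p) w := hu.2.2.trans ⟨A, le_rfl⟩
      have h3 : ρ / (2 * (k2 + 1)) < A.length := by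
        by_contra hcon
        exact h1 (h2.mono (by omega))
      have h4 : ρ ≤ 2 * (k2 + 1) * A.length := by
        have h5 : ρ < 2 * (k2 + 1) * A.length := by
          have h6 := Nat.lt_mul_of_div_lt h3 (by omega : 0 < 2 * (k2 + 1))
          rwa [Nat.mul_comm] at h6
        exact h5.le
      have h5 : Nr (ringOut (D.G.deleteEdges {e}) D.U ord) A.length (Sum.inl u) (Sum.inl w) :=
        ring_N hD hG he hord (hCU u hu) ⟨A, le_rfl⟩
      refine ((hto _ u hu.2.2).trans h5).mono ?_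
      have h6 : 2 * (k * ρ) + 3 + ρ + A.length ≤ M * A.length :=
        num_out hk hk2 hκ (Nat.lt_of_le_of_lt (Nat.zero_le _) h3) h4
      omega
    · intro q hq
      have hq1 : 1 ≤ (D.w q).length := by
        have := hD.w_ge q
        omega
      by_cases h1 : D.hub q = D.hub p
      · refine ⟨da, by rw [hda, h1], ?_⟩
        have h2 : dd D p C (D.x q) ≤ 0 + (D.w q).length := dd_le h1 hq (Nr.refl _ _ _)
        have h3 := (nr_getVert R (Nat.zero_le ((k + 2) * dd D p C (D.x q)))).symm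
        rw [SimpleGraph.Walk.getVert_zero] at h3
        refine h3.mono (le_trans ?_ (num_lip hk hk2 hκ))
        rw [Nat.sub_zero]
        exact Nat.mul_le_mul_left _ (by omega)
      · by_cases h2 : D.hub q = b
        · refine ⟨db, by rw [hdb, h2], ?_⟩
          obtain ⟨q1, s, h3, h4, h5, h6⟩ := dd_spec hxC hq.2.2.symm
          have h7 := hstar q1 q σ s h3 h2 h4.2.2 (by omega) h5.symm
          have h8 : n ≤ k * dd D p C (D.x q) + k * (D.w q).length := by
            rw [h6]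
            refine h7.trans (le_of_eq ?_)
            ring
          have h9 : R.length - (k + 2) * dd D p C (D.x q) ≤ (k + 2) * (D.w q).length := by
            have h10 : (k + 2) * dd D p C (D.x q) = k * dd D p C (D.x q) + 2 * dd D p C (D.x q) := by
              ring
            have h11 : (k + 2) * (D.w q).length = k * (D.w q).length + 2 * (D.w q).length := by
              ring
            omega
          have h10 : Nr (ringOut (D.G.deleteEdges {e}) D.U ord)
              (R.length - (k + 2) * dd D p C (D.x q))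
              (R.getVert ((k + 2) * dd D p C (D.x q))) (Sum.inr db) := by
            rcases le_total ((k + 2) * dd D p C (D.x q)) R.length with h11 | h11
            · have h12 := nr_getVert R h11
              rwa [R.getVert_length] at h12
            · rw [R.getVert_of_length_le h11]
              exact Nr.refl _ _ _
          exact h10.mono (h9.trans (num_lip hk hk2 hκ))
        · have h3 : q ≠ p := by
            rintro rfl
            exact h1 rfl
          have h4 : ρ < σ + (D.w q).length := by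
            by_contra hcon
            rcases hpin q ⟨σ, hq.2.2, by omega⟩ with h5 | h5
            · exact h1 h5
            · exact h2 h5
          obtain ⟨d, hd, h5⟩ := ring_pin hD hG he hord h3
          refine ⟨d, hd, ?_⟩
          refine ((hto _ (D.x q) hq.2.2).trans h5).mono ?_
          have h6 : 2 * (k * ρ) + 3 + ρ + (D.w q).length ≤ M * (D.w q).length :=
            num_pin hk hk2 hκ hq1 (by omega)
          omega

end Pool.Agent.Helper66.PL
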