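import Pool.Agent.Helper66.PL.Walks

/-!
# PL: pins and walks of `N` in the graph with doors (MP_0dbcb7_co)
-/

set_option autoImplicit false
set_option linter.unusedSectionVars false

open Set
open Pool.Agent.Helper83.OP Pool.Agent.Helper83.HR Pool.Agent.Helper93.HH Pool.Agent.Helper95.HH
open Pool.Agent.Helper23.PL

namespace Pool.Agent.Helper66.PL

section

variable {V P Q : Type} [Finite V] {D : HD V P Q}

/-- the edges of `N` are on no pin -/
theorem N_not_pin (hD : D.Ok) {p : P} {f : Sym2 V} (hf : f ∈ D.N.edgeSet) :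
    f ∉ (D.w p).edges := by
  intro h
  induction f with
  | h a b =>
    have h1 : D.N.Adj a b := hf
    have ha : a = D.x p := by
      by_contra hcon
      exact hD.w_N p a ((D.w p).fst_mem_support_of_mem_edges h) hcon (HD.VN_of_adj h1)
    have hb : b = D.x p := by
      by_contra hcon
      exact hD.w_N p b ((D.w p).snd_mem_support_of_mem_edges h) hcon (HD.VN_of_adj' h1)
    exact h1.ne (ha.trans hb.symm)

/-- two pins have no common edge -/
theorem pin_edges (hD : D.Ok) {p q : P} (h : q ≠ p) {f : Sym2 V} (hf : f ∈ (D.w q).edges) :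
    f ∉ (D.w p).edges := by
  intro hf'
  induction f with
  | h a b =>
    have hab : a ≠ b := ((D.w p).adj_of_mem_edges hf').ne
    have key : ∀ z ∈ (D.w p).support, z ∈ (D.w q).support → z = D.x p ∨ z = D.hub p := by
      intro z hz hz'
      by_contra hcon
      push Not at hcon
      exact h (hD.w_disj p q z hz hz' hcon.1 hcon.2).symm
    have ha := key a ((D.w p).fst_mem_support_of_mem_edges hf')
      ((D.w q).fst_mem_support_of_mem_edges hf)
    have hb := key b ((D.w p).snd_mem_support_of_mem_edges hf')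
      ((D.w q).snd_mem_support_of_mem_edges hf)
    have h1 : s(D.x p, D.hub p) ∈ (D.w p).edges := by
      rcases ha with ha | ha <;> rcases hb with hb | hb
      · exact absurd (ha.trans hb.symm) hab
      · rw [ha, hb] at hf'
        exact hf'
      · rw [ha, hb, Sym2.eq_swap] at hf'
        exact hf'
      · exact absurd (ha.trans hb.symm) hab
    have h2 := end_edge (D.w p) (hD.w_path p) h1
    have h3 := hD.w_ge p
    have h4 := hD.r_pos
    omega

theorem nr_not_U (hD : D.Ok) {t : ℕ} {u v : V} (h : Nr D.N t u v) (hu : u ∉ D.U) : v ∉ D.U := by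
  obtain ⟨p, -⟩ := h
  induction p with
  | nil => exact hu
  | cons h q ih => exact ih (hD.N_U _ _ h.symm)

/-- a walk of `N` is a walk of `G` without hubs -/
theorem N_walk (hD : D.Ok) {u v : V} (A : D.N.Walk u v) (hu : u ∉ D.U) :
    ∃ W : D.G.Walk u v, cw D W = A.length ∧ ∀ f ∈ W.edges, f ∈ D.N.edgeSet := by
  induction A with
  | nil =>
    refine ⟨SimpleGraph.Walk.nil, ?_, by simp⟩
    rw [cw_nil, gh_out hu]
    rfl
  | cons h q ih =>
    obtain ⟨W, hW, hW2⟩ := ih (hD.N_U _ _ h.symm)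
    refine ⟨SimpleGraph.Walk.cons (hD.N_le h) W, ?_, ?_⟩
    · rw [cw_cons, gh_out hu, hW, SimpleGraph.Walk.length_cons]
      omega
    · intro f hf
      rw [SimpleGraph.Walk.edges_cons, List.mem_cons] at hf
      rcases hf with hf | hf
      · rw [hf]
        exact h
      · exact hW2 f hf

/-- a pin without its last edge -/
theorem pin_walk (hD : D.Ok) (q : P) : ∃ (y : V) (X : D.G.Walk (D.x q) y),
    D.G.Adj y (D.hub q) ∧ s(D.hub q, y) ∈ (D.w q).edges ∧ y ∉ D.U ∧
      (∀ f ∈ X.edges, f ∈ (D.w q).edges) ∧ cw D X + 1 = (D.w q).length := by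
  have h1 := hD.w_ge q
  have h2 := hD.r_pos
  obtain ⟨y, X, hy, hX⟩ := last_split (D.w q) (by omega)
  have h3 : (D.w q).support = X.support ++ [D.hub q] := by
    rw [hX, SimpleGraph.Walk.support_append]
    simp
  have h4 : (D.w q).edges = X.edges ++ [s(y, D.hub q)] := by
    rw [hX, SimpleGraph.Walk.edges_append]
    simp
  have h5 : (D.w q).length = X.length + 1 := by
    rw [hX, SimpleGraph.Walk.length_append]
    simp
  have h6 : D.hub q ∉ X.support := by
    have h7 := (hD.w_path q).support_nodup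
    rw [h3, List.nodup_append] at h7
    intro h8
    exact h7.2.2 _ h8 _ (by simp) rfl
  have h7 : ∀ z ∈ X.support, z ∉ D.U := by
    intro z hz
    refine hD.w_U q z ?_ ?_
    · rw [h3]
      exact List.mem_append_left _ hz
    · rintro rfl
      exact h6 hz
  refine ⟨y, X, hy, ?_, h7 y X.end_mem_support, ?_, ?_⟩
  · rw [h4, Sym2.eq_swap]
    simp
  · intro f hf
    rw [h4]
    exact List.mem_append_left _ hf
  · rw [cw_le_length X h7, h5]

/-! ### in the graph with doors -/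

/-- a walk of `G` without edges of the pin `p` -/
theorem ring_G (hD : D.Ok) (hG : GOk D) {p : P} {e : Sym2 V} (he : e ∈ (D.w p).edges)
    {ord : V → V → ℕ} (hord : IsOrd (D.G.deleteEdges {e}) D.U ord) {u v : V} (hu : u ∉ D.U)
    (hv : v ∉ D.U) (W : D.G.Walk u v) (hW : ∀ f ∈ W.edges, f ∉ Fp D p) {t : ℕ} (ht : cw D W ≤ t) :
    Nr (ringOut (D.G.deleteEdges {e}) D.U ord) t (Sum.inl u) (Sum.inl v) := by
  have h1 : ∀ f ∈ W.edges, f ∈ (D.G.deleteEdges {e}).edgeSet := by
    intro f hf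
    rw [SimpleGraph.edgeSet_deleteEdges]
    refine ⟨W.edges_subset_edgeSet hf, ?_⟩
    rintro rfl
    exact hW _ hf he
  have hU : ∀ u ∈ D.U, ∀ v ∈ D.U, ¬ (D.G.deleteEdges {e}).Adj u v := fun u hu v hv h =>
    hub_nadj D hD hG u hu v hv (SimpleGraph.deleteEdges_le _ h)
  have h2 := nr_ring (D.G.deleteEdges {e}) D.U ord hord hU _ hu hv (W.transfer _ h1) le_rfl
  refine h2.mono (le_trans ?_ ht)
  rw [SimpleGraph.Walk.length_transfer, SimpleGraph.Walk.support_transfer, cw_eq]
  refine Nat.add_le_add_left (List.sum_le_sum fun z _ => ?_) _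
  exact gh_le (SimpleGraph.deleteEdges_le _) _ _

theorem ring_N (hD : D.Ok) (hG : GOk D) {p : P} {e : Sym2 V} (he : e ∈ (D.w p).edges)
    {ord : V → V → ℕ} (hord : IsOrd (D.G.deleteEdges {e}) D.U ord) {u v : V} (hu : u ∉ D.U)
    {t : ℕ} (h : Nr D.N t u v) :
    Nr (ringOut (D.G.deleteEdges {e}) D.U ord) t (Sum.inl u) (Sum.inl v) := by
  have hv := nr_not_U hD h hu
  obtain ⟨A, hA⟩ := h
  obtain ⟨W, hW, hW2⟩ := N_walk hD A hu
  exact ring_G hD hG he hord hu hv W (fun f hf => N_not_pin hD (hW2 f hf)) (by omega)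

theorem ring_pin (hD : D.Ok) (hG : GOk D) {p : P} {e : Sym2 V} (he : e ∈ (D.w p).edges)
    {ord : V → V → ℕ} (hord : IsOrd (D.G.deleteEdges {e}) D.U ord) {q : P} (hq : q ≠ p) :
    ∃ d : Dor (D.G.deleteEdges {e}) D.U, d.1.2 = D.hub q ∧
      Nr (ringOut (D.G.deleteEdges {e}) D.U ord) (D.w q).length (Sum.inl (D.x q)) (Sum.inr d) := by
  obtain ⟨y, X, hy, hy2, hyU, hX, hX2⟩ := pin_walk hD q
  have h1 : (D.G.deleteEdges {e}).Adj y (D.hub q) := by
    rw [SimpleGraph.deleteEdges_adj]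
    refine ⟨hy, fun h => ?_⟩
    rw [Sym2.eq_swap] at h
    have h2 : s(D.hub q, y) = e := h
    exact pin_edges hD hq hy2 (h2 ▸ he)
  refine ⟨mkDor y (D.hub q) h1 (hD.hub_U q), rfl, ?_⟩
  have h2 := ring_G hD hG he hord (hD.x_U q) hyU X (fun f hf => pin_edges hD hq (hX f hf)) le_rfl
  have h3 : (ringOut (D.G.deleteEdges {e}) D.U ord).Adj (Sum.inl y)
      (Sum.inr (mkDor y (D.hub q) h1 (hD.hub_U q))) :=
    ringOut_door (mkDor y (D.hub q) h1 (hD.hub_U q)) hyU
  rw [← hX2]
  exact h2.trans (Nr.of_adj h3)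

/-- a radius with a gap -/
theorem exists_gap (D : HD V P Q) (x : V) (ρ k2 : ℕ) (hb : bv D (D.ball ρ x) ≤ k2) :
    ∃ σ, 2 * σ ≤ ρ ∧ ∀ v, 3 ≤ D.dg v → Nr D.N (σ + ρ / (2 * (k2 + 1))) x v → Nr D.N σ x v := by
  by_contra hcon
  push Not at hcon
  set δ := ρ / (2 * (k2 + 1)) with hδ
  have hδ2 : 2 * (k2 + 1) * δ ≤ ρ := Nat.mul_div_le _ _
  have h1 : ∀ i : Fin (k2 + 1), ∃ v, 3 ≤ D.dg v ∧ Nr D.N ((i : ℕ) * δ + δ) x v ∧
      ¬ Nr D.N ((i : ℕ) * δ) x v := by
    intro i
    refine hcon ((i : ℕ) * δ) ?_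
    have h2 : (i : ℕ) * δ ≤ (k2 + 1) * δ := Nat.mul_le_mul_right _ i.2.le
    have h3 : 2 * (k2 + 1) * δ = 2 * ((k2 + 1) * δ) := by ring
    omega
  choose v hv1 hv2 hv3 using h1
  have hinj : Function.Injective v := by
    have key : ∀ i j : Fin (k2 + 1), i < j → v i ≠ v j := by
      intro i j hij h
      refine hv3 j ?_
      rw [← h]
      refine (hv2 i).mono ?_
      have h2 : ((i : ℕ) + 1) * δ ≤ (j : ℕ) * δ := Nat.mul_le_mul_right _ hij
      have h3 : ((i : ℕ) + 1) * δ = (i : ℕ) * δ + δ := by ring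
      omega
    intro i j h
    rcases lt_trichotomy i j with h2 | h2 | h2
    · exact absurd h (key i j h2)
    · exact h2
    · exact absurd h.symm (key j i h2)
  have h2 : Set.range v ⊆ D.ball ρ x ∩ Vb D := by
    rintro _ ⟨i, rfl⟩
    refine ⟨?_, hv1 i⟩
    refine (hv2 i).mono ?_
    have h2 : ((i : ℕ) + 1) * δ ≤ (k2 + 1) * δ := Nat.mul_le_mul_right _ i.2
    have h3 : ((i : ℕ) + 1) * δ = (i : ℕ) * δ + δ := by ring
    have h4 : 2 * (k2 + 1) * δ = 2 * ((k2 + 1) * δ) := by ring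
    omega
  have h3 : (Set.range v).ncard = k2 + 1 := by
    rw [← Set.image_univ, Set.ncard_image_of_injective _ hinj, Set.ncard_univ, Nat.card_eq_fintype_card,
      Fintype.card_fin]
  have h4 := Set.ncard_le_ncard h2 (Set.toFinite _)
  unfold bv at hb
  omega

end

end Pool.Agent.Helper66.PL
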