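import Pool.Agent.Helper23.PL.Defs
import Pool.Agent.Helper95.HH.VolCmp
import Pool.Agent.Helper95.HH.RingWalk

/-!
# PL: walks of `G` in the graph with doors (MP_0dbcb7_co)

The cost `cw` of a walk of `G` bounds the length of the corresponding walk outside the hubs.
-/

set_option autoImplicit false

open Set
open Pool.Agent.Helper83.OP Pool.Agent.Helper83.HR Pool.Agent.Helper93.HH Pool.Agent.Helper95.HH
open Pool.Agent.Helper23.PL

namespace Pool.Agent.Helper66.PL

open Classical in
/-- the degree of a hub, `0` outside the hubs -/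
noncomputable def gh {V : Type} (G : SimpleGraph V) (U : Set V) (z : V) : ℕ :=
  if z ∈ U then deg G z else 0

theorem gh_out {V : Type} {G : SimpleGraph V} {U : Set V} {z : V} (h : z ∉ U) : gh G U z = 0 :=
  if_neg h

theorem gh_in {V : Type} {G : SimpleGraph V} {U : Set V} {z : V} (h : z ∈ U) :
    gh G U z = deg G z := if_pos h

theorem deg_le {V : Type} [Finite V] {H G : SimpleGraph V} (h : H ≤ G) (z : V) :
    deg H z ≤ deg G z := Set.ncard_le_ncard (fun _ hw => h hw) (Set.toFinite _)

theorem gh_le {V : Type} [Finite V] {H G : SimpleGraph V} (h : H ≤ G) (U : Set V) (z : V) :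
    gh H U z ≤ gh G U z := by
  by_cases hz : z ∈ U
  · rw [gh_in hz, gh_in hz]
    exact deg_le h z
  · rw [gh_out hz, gh_out hz]

section

variable {V P Q : Type} {D : HD V P Q}

theorem cw_eq {u v : V} (W : D.G.Walk u v) :
    cw D W = W.length + (W.support.map (gh D.G D.U)).sum := rfl

theorem cw_nil (u : V) : cw D (SimpleGraph.Walk.nil : D.G.Walk u u) = gh D.G D.U u := by
  rw [cw_eq]
  simp

theorem cw_cons {u v w : V} (h : D.G.Adj u v) (W : D.G.Walk v w) :
    cw D (SimpleGraph.Walk.cons h W) = 1 + gh D.G D.U u + cw D W := by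
  rw [cw_eq, cw_eq, SimpleGraph.Walk.length_cons, SimpleGraph.Walk.support_cons, List.map_cons,
    List.sum_cons]
  omega

theorem cw_append {u v w : V} (W : D.G.Walk u v) (W' : D.G.Walk v w) :
    cw D (W.append W') + gh D.G D.U v = cw D W + cw D W' := by
  induction W with
  | nil =>
    rw [SimpleGraph.Walk.nil_append, cw_nil]
    omega
  | cons h W ih =>
    rw [SimpleGraph.Walk.cons_append, cw_cons, cw_cons]
    have := ih W'
    omega

theorem cw_append_le {u v w : V} (W : D.G.Walk u v) (W' : D.G.Walk v w) :
    cw D (W.append W') ≤ cw D W + cw D W' := by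
  have := cw_append W W'
  omega

theorem cw_reverse {u v : V} (W : D.G.Walk u v) : cw D W.reverse = cw D W := by
  rw [cw_eq, cw_eq, SimpleGraph.Walk.length_reverse, SimpleGraph.Walk.support_reverse,
    List.map_reverse, List.sum_reverse]

theorem cw_le_length {u v : V} (W : D.G.Walk u v) (h : ∀ z ∈ W.support, z ∉ D.U) :
    cw D W = W.length := by
  rw [cw_eq]
  have h2 : (W.support.map (gh D.G D.U)).sum = 0 := by
    rw [List.sum_eq_zero_iff]
    intro n hn
    obtain ⟨w, hw, rfl⟩ := List.mem_map.1 hn
    exact gh_out (h w hw)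
  omega

end

/-! ### the graph with doors -/

/-- a walk of `H` between two vertices outside the hubs -/
theorem nr_ring {V : Type} [Finite V] (H : SimpleGraph V) (U : Set V) (ord : V → V → ℕ)
    (hord : IsOrd H U ord) (hU : ∀ u ∈ U, ∀ v ∈ U, ¬ H.Adj u v) (n : ℕ) :
    ∀ {u v : V} (_ : u ∉ U) (_ : v ∉ U) (W : H.Walk u v), W.length ≤ n →
      Nr (ringOut H U ord) (W.length + (W.support.map (gh H U)).sum) (Sum.inl u) (Sum.inl v) := by
  induction n using Nat.strong_induction_on with
  | _ n ih =>
    intro u v hu hv W hn
    cases W with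
    | nil => exact Nr.refl _ _ _
    | @cons _ w _ h W' =>
      rw [SimpleGraph.Walk.length_cons] at hn
      rw [SimpleGraph.Walk.length_cons, SimpleGraph.Walk.support_cons, List.map_cons, List.sum_cons,
        gh_out hu]
      by_cases hw : w ∈ U
      · cases W' with
        | nil => exact absurd hw hv
        | @cons _ w2 _ h' W2 =>
          rw [SimpleGraph.Walk.length_cons] at hn
          rw [SimpleGraph.Walk.length_cons, SimpleGraph.Walk.support_cons, List.map_cons,
            List.sum_cons, gh_in hw]
          have hw2 : w2 ∉ U := fun hw2 => hU _ hw _ hw2 h'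
          have h1 := ih W2.length (by omega) hw2 hv W2 le_rfl
          by_cases huw : u = w2
          · subst huw
            exact h1.mono (by omega)
          · have hp : (SimpleGraph.Walk.cons h (SimpleGraph.Walk.cons h' SimpleGraph.Walk.nil) :
                H.Walk u w2).IsPath := by
              simp [SimpleGraph.Walk.cons_isPath_iff, h.ne, h'.ne, huw]
            obtain ⟨R, hR⟩ := (ring_walk H U ord hord hU hu _ hp).1 hw2
            have h2 : Nr (ringOut H U ord) (2 + deg H w) (Sum.inl u) (Sum.inl w2) := by
              refine ⟨R, hR.trans ?_⟩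
              simp only [SimpleGraph.Walk.length_cons, SimpleGraph.Walk.length_nil,
                SimpleGraph.Walk.support_cons, SimpleGraph.Walk.support_nil, List.map_cons,
                List.map_nil, List.sum_cons, List.sum_nil]
              rw [if_neg (fun h => hu h.1), if_pos ⟨hw, h'.ne⟩, if_neg (fun h => h.2 rfl)]
              omega
            exact (h2.trans h1).mono (by omega)
      · have h1 := ih W'.length (by omega) hw hv W' le_rfl
        exact ((Nr.of_adj (ringOut_old h hu hw)).trans h1).mono (by omega)

/-- two vertices of a walk -/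
theorem nr_getVert {V : Type} {R : SimpleGraph V} {s t : V} (W : R.Walk s t) {i j : ℕ}
    (h : i ≤ j) : Nr R (j - i) (W.getVert i) (W.getVert j) := by
  induction j, h using Nat.le_induction with
  | base => exact Nr.refl _ _ _
  | succ j hj ih =>
    have h1 : Nr R 1 (W.getVert j) (W.getVert (j + 1)) := by
      rcases lt_or_ge j W.length with h | h
      · exact Nr.of_adj (W.adj_getVert_succ h)
      · rw [W.getVert_of_length_le h, W.getVert_of_length_le (by omega)]
        exact Nr.refl _ _ _
    exact (ih.trans h1).mono (by omega)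

theorem nr_getVert_len {V : Type} {R : SimpleGraph V} {s t w : V} (W : R.Walk s t) (i : ℕ)
    (h : w ∈ W.support) : Nr R W.length (W.getVert i) w := by
  obtain ⟨j, hj, hj2⟩ := SimpleGraph.Walk.mem_support_iff_exists_getVert.1 h
  rcases le_total i j with h1 | h1
  · have := nr_getVert W h1
    rw [hj] at this
    exact this.mono (by omega)
  · rcases le_total i W.length with h2 | h2
    · have := (nr_getVert W h1).symm
      rw [hj] at this
      exact this.mono (by omega)
    · have := (nr_getVert W hj2).symm
      rw [hj] at this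
      rw [W.getVert_of_length_le h2]
      rw [W.getVert_of_length_le le_rfl] at this
      exact this.mono (by omega)

theorem ringOut_walk_ne {V : Type} {H : SimpleGraph V} {U : Set V} {ord : V → V → ℕ}
    {s t : V ⊕ Dor H U} (W : (ringOut H U ord).Walk s t) (hs : ∀ a ∈ U, s ≠ Sum.inl a) (k : ℕ) :
    ∀ a ∈ U, W.getVert k ≠ Sum.inl a := by
  induction W generalizing k with
  | nil => simpa using hs
  | cons h q ih =>
    cases k with
    | zero => simpa using hs
    | succ k =>
      rw [SimpleGraph.Walk.getVert_cons_succ]
      exact ih h.2.2 k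

/-- the last edge -/
theorem last_split {V : Type} {G : SimpleGraph V} {a b : V} (W : G.Walk a b)
    (h : 1 ≤ W.length) : ∃ (y : V) (X : G.Walk a y) (hy : G.Adj y b),
      W = X.append (SimpleGraph.Walk.cons hy SimpleGraph.Walk.nil) := by
  induction W with
  | nil => simp at h
  | @cons u w b hw q ih =>
    rcases Nat.eq_zero_or_pos q.length with h0 | h0
    · cases q with
      | nil => exact ⟨u, SimpleGraph.Walk.nil, hw, rfl⟩
      | cons h' q' => simp at h0
    · obtain ⟨y, X, hy, hX⟩ := ih h0
      exact ⟨y, SimpleGraph.Walk.cons hw X, hy, by rw [hX]; rfl⟩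

theorem end_edge {V : Type} {G : SimpleGraph V} {a b : V} (W : G.Walk a b) (hp : W.IsPath)
    (h : s(a, b) ∈ W.edges) : W.length ≤ 1 := by
  cases W with
  | nil => simp
  | @cons _ w _ hw q =>
    rw [SimpleGraph.Walk.cons_isPath_iff] at hp
    rw [SimpleGraph.Walk.edges_cons, List.mem_cons] at h
    rcases h with h | h
    · have hwb : w = b := by
        rcases Sym2.eq_iff.1 h with ⟨-, h2⟩ | ⟨h1, h2⟩
        · exact h2.symm
        · exact h1 ▸ h2.symm
      subst hwb
      have h3 := SimpleGraph.Walk.isPath_iff_nil.1 hp.1
      rw [SimpleGraph.Walk.length_cons, SimpleGraph.Walk.length_eq_zero_iff.2 h3]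
    · exact absurd (q.fst_mem_support_of_mem_edges h) hp.2

end Pool.Agent.Helper66.PL
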